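import Mathlib
import Pool.Agent.V1129.Ech

set_option autoImplicit false

/-!
The intersection of two echelon subgroups of the free group of rank two need not be echelon:
`⟨a, b²a²b²⟩ ∩ ⟨b, a²b²a²⟩` contains no nontrivial power of a primitive element.
-/

namespace Pool.Agent.Results.MP_339e71_al.NotEchelon

open Pool.Agent.V1129.Ech

/-- the free group of rank two -/
abbrev F2 : Type := FreeGroup (Fin 2)

/-- the generator `a` -/
def a : F2 := FreeGroup.of 0
/-- the generator `b` -/
def b : F2 := FreeGroup.of 1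

/-- `⟨u, v²u²v²⟩` -/
def Hs (u v : F2) : Subgroup F2 := Subgroup.closure {u, v * v * (u * u) * (v * v)}

/-! ### Injectivity of `a ↦ a`, `b ↦ b²a²b²` -/

/-- the map `a ↦ u`, `b ↦ v²u²v²` -/
def θ (u v : F2) : F2 →* F2 := FreeGroup.lift ![u, v * v * (u * u) * (v * v)]

/-- permutation of the states for `a` -/
def sa : Equiv.Perm (Fin 6) := Equiv.swap 2 4 * Equiv.swap 2 3
/-- permutation of the states for `b` -/
def sb : Equiv.Perm (Fin 6) := Equiv.swap 0 5 * Equiv.swap 0 4 * Equiv.swap 0 2 * Equiv.swap 0 1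

/-- action of `a` -/
def Pa : Equiv.Perm (F2 × Fin 6) where
  toFun p := (if p.2 = 0 then a * p.1 else p.1, sa p.2)
  invFun p := (if p.2 = 0 then a⁻¹ * p.1 else p.1, sa⁻¹ p.2)
  left_inv := by
    rintro ⟨g, s⟩
    fin_cases s <;> simp [sa] <;> decide
  right_inv := by
    rintro ⟨g, s⟩
    fin_cases s <;> simp [sa] <;> decide

/-- action of `b` -/
def Pb : Equiv.Perm (F2 × Fin 6) where
  toFun p := (if p.2 = 5 then b * p.1 else p.1, sb p.2)
  invFun p := (if p.2 = 0 then b⁻¹ * p.1 else p.1, sb⁻¹ p.2)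
  left_inv := by
    rintro ⟨g, s⟩
    fin_cases s <;> simp [sb] <;> decide
  right_inv := by
    rintro ⟨g, s⟩
    fin_cases s <;> simp [sb] <;> decide

/-- the action of the free group -/
def Φ : F2 →* Equiv.Perm (F2 × Fin 6) := FreeGroup.lift ![Pa, Pb]

lemma Pa_apply (p : F2 × Fin 6) : Pa p = (if p.2 = 0 then a * p.1 else p.1, sa p.2) := rfl
lemma Pb_apply (p : F2 × Fin 6) : Pb p = (if p.2 = 5 then b * p.1 else p.1, sb p.2) := rfl

lemma Φ_a (g : F2) : Φ a (g, 0) = (a * g, 0) := by
  have ha : Φ a = Pa := by simp [Φ, a]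
  have e1 : sa 0 = 0 := by decide
  rw [ha, Pa_apply]
  simp only [e1, if_true]

lemma Φ_w (g : F2) : Φ (b * b * (a * a) * (b * b)) (g, 0) = (b * g, 0) := by
  have ha : Φ a = Pa := by simp [Φ, a]
  have hb : Φ b = Pb := by simp [Φ, b]
  have e1 : sb 0 = 1 := by decide
  have e2 : sb 1 = 2 := by decide
  have e3 : sa 2 = 3 := by decide
  have e4 : sa 3 = 4 := by decide
  have e5 : sb 4 = 5 := by decide
  have e6 : sb 5 = 0 := by decide
  have d1 : (0 : Fin 6) ≠ 5 := by decide
  have d2 : (1 : Fin 6) ≠ 5 := by decide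
  have d3 : (2 : Fin 6) ≠ 0 := by decide
  have d4 : (3 : Fin 6) ≠ 0 := by decide
  have d5 : (4 : Fin 6) ≠ 5 := by decide
  simp only [map_mul, ha, hb, Equiv.Perm.mul_apply]
  simp only [Pb_apply, Pa_apply, e1, e2, e3, e4, e5, e6, if_neg d1, if_neg d2,
    if_neg d3, if_neg d4, if_neg d5, if_true]

lemma Φ_θ (u g : F2) : Φ (θ a b u) (g, 0) = (u * g, 0) := by
  induction u using FreeGroup.induction_on generalizing g with
  | C1 => simp
  | of i =>
    fin_cases i
    · show Φ (FreeGroup.lift ![a, b * b * (a * a) * (b * b)] (FreeGroup.of 0)) (g, 0) = _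
      rw [FreeGroup.lift_apply_of]
      exact Φ_a g
    · show Φ (FreeGroup.lift ![a, b * b * (a * a) * (b * b)] (FreeGroup.of 1)) (g, 0) = _
      rw [FreeGroup.lift_apply_of]
      exact Φ_w g
  | inv_of i h =>
    rw [map_inv, map_inv, Equiv.Perm.inv_eq_iff_eq, h]
    simp
  | mul x y hx hy =>
    rw [map_mul, map_mul, Equiv.Perm.mul_apply, hy, hx, mul_assoc]

lemma θ_inj : Function.Injective (θ a b) := by
  rw [injective_iff_map_eq_one]
  intro u hu
  have h1 := Φ_θ u 1
  rw [hu, map_one, Equiv.Perm.one_apply, mul_one] at h1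
  exact (congrArg Prod.fst h1).symm

lemma θ_range (u v : F2) : (θ u v).range = Hs u v := by
  rw [θ, FreeGroup.range_lift_eq_closure, Hs]
  congr 1
  simp [Matrix.range_cons, Set.pair_comm]

lemma rank_two : HasRank (Hs a b) 2 := by
  rw [← θ_range]
  exact ⟨(MonoidHom.ofInjective θ_inj).symm⟩

/-! ### The two subgroups are echelon -/

lemma basis_ab : IsBasis (![a, b] : Fin 2 → F2) := by
  have h : (FreeGroup.lift ![a, b] : F2 →* F2) = MonoidHom.id _ := by
    ext i
    fin_cases i <;> simp [a, b]
  rw [IsBasis, h]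
  exact Function.bijective_id

lemma rank_one : HasRank (Hs a b ⊓ flag (![a, b] : Fin 2 → F2) 1) 1 := by
  have h1 : flag (![a, b] : Fin 2 → F2) 1 = Subgroup.zpowers a := by
    rw [flag, Subgroup.zpowers_eq_closure]
    congr 1
    ext y
    constructor
    · rintro ⟨k, hk, rfl⟩
      have : k = 0 := by
        apply Fin.ext
        simp only [Set.mem_ofPred_eq] at hk
        simpa using hk
      subst this
      rfl
    · rintro rfl
      exact ⟨0, by simp, rfl⟩
  have h2 : Hs a b ⊓ flag (![a, b] : Fin 2 → F2) 1 = Subgroup.zpowers a := by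
    rw [h1, inf_eq_right, Subgroup.zpowers_le]
    exact Subgroup.subset_closure (by simp)
  rw [h2]
  -- `⟨a⟩` is free of rank one
  let f : FreeGroup (Fin 1) →* F2 := FreeGroup.map (fun _ => (0 : Fin 2))
  have hf : Function.Injective f := FreeGroup.map_injective (fun x y _ => Subsingleton.elim x y)
  have hr : f.range = Subgroup.zpowers a := by
    have h3 : f = FreeGroup.lift (fun _ => a) := by
      ext i
      simp [f, a]
    rw [h3, FreeGroup.range_lift_eq_closure, Subgroup.zpowers_eq_closure]
    congr 1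
    simp
  rw [← hr]
  exact ⟨(MonoidHom.ofInjective hf).symm⟩

lemma echelon_first : Echelon (Hs a b) := by
  refine ⟨2, ![a, b], basis_ab, ?_⟩
  intro i hi
  interval_cases i
  · exact ⟨1, 0, rank_one, hasRank_bot (by rw [flag_zero, inf_bot_eq]), le_rfl⟩
  · refine ⟨2, 1, ?_, rank_one, le_rfl⟩
    have h1 : flag (![a, b] : Fin 2 → F2) (1 + 1) = ⊤ := flag_top _ basis_ab
    rw [h1, inf_top_eq]
    exact rank_two

/-- being echelon is invariant under automorphisms -/
lemma echelon_map (τ : F2 ≃* F2) (H : Subgroup F2) (h : Echelon H) :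
    Echelon (H.map τ.toMonoidHom) := by
  obtain ⟨n, x, hx, hH⟩ := h
  have hflag : ∀ i, (flag x i).map τ.toMonoidHom = flag (fun k => τ (x k)) i := by
    intro i
    rw [flag, flag, MonoidHom.map_closure, ← Set.image_comp]
    rfl
  have hrank : ∀ (L : Subgroup F2) (r : ℕ), HasRank L r → HasRank (L.map τ.toMonoidHom) r := by
    rintro L r ⟨e⟩
    exact ⟨(L.equivMapOfInjective τ.toMonoidHom τ.injective).symm.trans e⟩
  refine ⟨n, fun k => τ (x k), ?_, ?_⟩
  · have h1 : (FreeGroup.lift (fun k => τ (x k)) : FreeGroup (Fin n) →* F2) =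
        τ.toMonoidHom.comp (FreeGroup.lift x) := by
      ext k
      simp
    rw [IsBasis, h1]
    exact τ.bijective.comp hx
  · intro i hi
    obtain ⟨r, s, hr, hs, hrs⟩ := hH i hi
    refine ⟨r, s, ?_, ?_, hrs⟩
    · rw [← hflag, ← Subgroup.map_inf _ _ _ τ.injective]
      exact hrank _ _ hr
    · rw [← hflag, ← Subgroup.map_inf _ _ _ τ.injective]
      exact hrank _ _ hs

lemma echelon_second : Echelon (Hs b a) := by
  have h := echelon_map (FreeGroup.freeGroupCongr (Equiv.swap 0 1)) _ echelon_first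
  have h1 : (Hs a b).map (FreeGroup.freeGroupCongr (Equiv.swap (0 : Fin 2) 1)).toMonoidHom =
      Hs b a := by
    have ha : (FreeGroup.freeGroupCongr (Equiv.swap (0 : Fin 2) 1)) a = b := by
      simp [a, b]
    have hb : (FreeGroup.freeGroupCongr (Equiv.swap (0 : Fin 2) 1)) b = a := by
      simp [a, b]
    rw [Hs, MonoidHom.map_closure, Set.image_pair]
    simp only [MulEquiv.toMonoidHom_eq_coe, MonoidHom.coe_coe, map_mul, ha, hb]
    rfl
  rwa [h1] at h

/-! ### The intersection -/

/-- the automaton of `⟨a, b²a²b²⟩` -/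
def δH (s : Fin 6) (x : Fin 2 × Bool) : Option (Fin 6) :=
  match x with
  | (0, true) => ![some 0, none, some 3, some 4, none, none] s
  | (0, false) => ![some 0, none, none, some 2, some 3, none] s
  | (1, true) => ![some 1, some 2, none, none, some 5, some 0] s
  | (1, false) => ![some 5, some 0, some 1, none, none, some 4] s

/-- the automaton of `⟨b, a²b²a²⟩` -/
def δG (s : Fin 6) (x : Fin 2 × Bool) : Option (Fin 6) := δH s (Equiv.swap 0 1 x.1, x.2)

lemma δH_inv : ∀ s x b t, δH s (x, b) = some t → δH t (x, !b) = some s := by decide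
lemma δG_inv : ∀ s x b t, δG s (x, b) = some t → δG t (x, !b) = some s := by decide

/-- the target of the test homomorphism -/
abbrev Q : Type := DihedralGroup 0 × Multiplicative ℤ

/-- the test homomorphism -/
def μ : F2 →* Q :=
  FreeGroup.lift ![(DihedralGroup.sr 0, Multiplicative.ofAdd 1),
    (DihedralGroup.sr 1, Multiplicative.ofAdd (-1))]

/-- the potential -/
def pot (s t : Fin 6) : Option Q :=
  match s, t with
  | 0, 0 => some (.r (0), .ofAdd (0))
  | 0, 1 => some (.sr (0), .ofAdd (1))
  | 0, 2 => some (.r (0), .ofAdd (2))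
  | 0, 4 => some (.r (0), .ofAdd (-2))
  | 0, 5 => some (.sr (0), .ofAdd (-1))
  | 1, 0 => some (.sr (1), .ofAdd (-1))
  | 1, 3 => some (.sr (1), .ofAdd (1))
  | 2, 0 => some (.r (0), .ofAdd (-2))
  | 2, 4 => some (.r (0), .ofAdd (0))
  | 3, 1 => some (.sr (0), .ofAdd (-1))
  | 3, 5 => some (.sr (0), .ofAdd (1))
  | 4, 0 => some (.r (0), .ofAdd (2))
  | 4, 2 => some (.r (0), .ofAdd (0))
  | 5, 0 => some (.sr (1), .ofAdd (1))
  | 5, 3 => some (.sr (1), .ofAdd (-1))
  | _, _ => none

/-- values of `μ` on letters -/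
def μv (x : Fin 2 × Bool) : Q :=
  match x with
  | (0, true) => (.sr 0, .ofAdd 1)
  | (0, false) => (.sr 0, .ofAdd (-1))
  | (1, true) => (.sr 1, .ofAdd (-1))
  | (1, false) => (.sr 1, .ofAdd 1)

lemma μ_letter (x : Fin 2 × Bool) : μ (FreeGroup.mk [x]) = μv x := by
  obtain ⟨i, c⟩ := x
  have h0 : μ (FreeGroup.of 0) = (.sr 0, .ofAdd 1) := by simp [μ]
  have h1 : μ (FreeGroup.of 1) = (.sr 1, .ofAdd (-1)) := by simp [μ]
  fin_cases i <;> cases c
  · show μ (FreeGroup.of 0)⁻¹ = _
    rw [map_inv, h0]
    rfl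
  · exact h0
  · show μ (FreeGroup.of 1)⁻¹ = _
    rw [map_inv, h1]
    rfl
  · exact h1

/-- the check -/
def chk (s s' : Fin 6) (x : Fin 2 × Bool) : Bool :=
  match pot s s', δH s x, δG s' x with
  | some q, some t, some t' => decide (pot t t' = some (q * μv x))
  | _, _, _ => true

lemma chk_all : ∀ s s' x, chk s s' x = true := by decide

lemma pot_step (s s' : Fin 6) (x : Fin 2 × Bool) (t t' : Fin 6) (q : Q) (h1 : pot s s' = some q)
    (h2 : δH s x = some t) (h3 : δG s' x = some t') :
    pot t t' = some (q * μ (FreeGroup.mk [x])) := by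
  have h := chk_all s s' x
  rw [chk, h1, h2, h3] at h
  rw [μ_letter]
  exact of_decide_eq_true h

lemma reads_H (k : F2) (hk : k ∈ Hs a b) : Reads δH 0 k.toWord 0 := by
  refine reads_closure δH_inv ?_ hk
  intro g hg
  simp only [Set.mem_insert_iff, Set.mem_singleton_iff] at hg
  rcases hg with rfl | rfl
  · exact ⟨[(0, true)], rfl, .cons (t := 0) rfl (.nil _)⟩
  · refine ⟨[(1, true), (1, true), (0, true), (0, true), (1, true), (1, true)], rfl, ?_⟩
    exact .cons (t := 1) rfl (.cons (t := 2) rfl (.cons (t := 3) rfl (.cons (t := 4) rfl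
      (.cons (t := 5) rfl (.cons (t := 0) rfl (.nil _))))))

lemma reads_G (k : F2) (hk : k ∈ Hs b a) : Reads δG 0 k.toWord 0 := by
  refine reads_closure δG_inv ?_ hk
  intro g hg
  simp only [Set.mem_insert_iff, Set.mem_singleton_iff] at hg
  rcases hg with rfl | rfl
  · exact ⟨[(1, true)], rfl, .cons (t := 0) rfl (.nil _)⟩
  · refine ⟨[(0, true), (0, true), (1, true), (1, true), (0, true), (0, true)], rfl, ?_⟩
    exact .cons (t := 1) rfl (.cons (t := 2) rfl (.cons (t := 3) rfl (.cons (t := 4) rfl
      (.cons (t := 5) rfl (.cons (t := 0) rfl (.nil _))))))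

/-- all elements of the intersection are killed by the test homomorphism -/
lemma μ_eq_one (k : F2) (h1 : k ∈ Hs a b) (h2 : k ∈ Hs b a) : μ k = 1 := by
  have h := potential μ pot pot_step (reads_H k h1) (reads_G k h2) (q := 1) rfl
  rw [FreeGroup.mk_toWord, one_mul] at h
  have h3 : pot 0 0 = some 1 := rfl
  rw [h3] at h
  exact (Option.some.inj h).symm

/-- no nontrivial power of a member of a generating pair is in the intersection -/
lemma no_power (x y : F2) (hxy : Subgroup.closure {x, y} = ⊤) (m : ℤ) (hm : m ≠ 0) :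
    μ (x ^ m) ≠ 1 := by
  intro h
  rw [map_zpow] at h
  -- the second component: `x` has exponent sum zero in `a b⁻¹`
  have h1 : (μ x).2 ^ m = 1 := congrArg Prod.snd h
  have h2 : (μ x).1 ^ m = 1 := congrArg Prod.fst h
  have h3 : (μ x).2 = 1 := by
    have h4 : m * Multiplicative.toAdd (μ x).2 = 0 := by
      have := congrArg Multiplicative.toAdd h1
      simpa using this
    rcases mul_eq_zero.1 h4 with h5 | h5
    · exact absurd h5 hm
    · exact Multiplicative.toAdd.injective h5
  -- parity
  have hpar : ∀ g : F2, (∃ i, (μ g).1 = .r i) ↔ Even (Multiplicative.toAdd (μ g).2) := by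
    intro g
    induction g using FreeGroup.induction_on with
    | C1 =>
      simp only [map_one]
      exact ⟨fun _ => ⟨0, rfl⟩, fun _ => ⟨0, rfl⟩⟩
    | of i =>
      fin_cases i
      · simp [μ]
      · simp [μ]
    | inv_of i hi =>
      fin_cases i
      · simp [μ]
      · simp [μ]
    | mul u v hu hv =>
      rw [map_mul, Prod.fst_mul, Prod.snd_mul, toAdd_mul, Int.even_add, ← hu, ← hv]
      rcases (μ u).1 with i | i <;> rcases (μ v).1 with j | j <;> simp
  obtain ⟨i, hi⟩ := (hpar x).2 (by rw [h3]; exact ⟨0, rfl⟩)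
  have hi0 : i = 0 := by
    rw [hi, DihedralGroup.r_zpow] at h2
    have h5 : i * (Int.cast m : ZMod 0) = 0 := by
      have h6 : DihedralGroup.r (i * (Int.cast m : ZMod 0)) = DihedralGroup.r 0 := h2
      exact DihedralGroup.r.inj h6
    have h7 : @HMul.hMul ℤ ℤ ℤ _ i m = 0 := by
      have h9 : (Int.cast m : ℤ) = m := Int.cast_id
      rw [← h9]
      exact h5
    rcases mul_eq_zero.1 h7 with h8 | h8
    · exact h8
    · exact absurd h8 hm
  have hx1 : (μ x).1 = 1 := by rw [hi, hi0]; rfl
  -- hence the infinite dihedral group is cyclic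
  let ν : F2 →* DihedralGroup 0 := (MonoidHom.fst _ _).comp μ
  have hνx : ν x = 1 := hx1
  have hall : ∀ g : F2, ν g ∈ Subgroup.zpowers (ν y) := by
    intro g
    have hg : g ∈ Subgroup.closure {x, y} := by rw [hxy]; trivial
    have h5 : Subgroup.closure {x, y} ≤ (Subgroup.zpowers (ν y)).comap ν := by
      rw [Subgroup.closure_le]
      rintro z (rfl | rfl)
      · show ν z ∈ Subgroup.zpowers (ν y)
        rw [hνx]
        exact one_mem _
      · exact Subgroup.mem_zpowers _
    exact h5 hg
  have hcomm : ν a * ν b = ν b * ν a := by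
    obtain ⟨i, hi⟩ := hall a
    obtain ⟨j, hj⟩ := hall b
    simp only at hi hj
    rw [← hi, ← hj, ← zpow_add, ← zpow_add, add_comm]
  have ha : ν a = .sr 0 := by simp [ν, μ, a]
  have hb : ν b = .sr 1 := by simp [ν, μ, b]
  rw [ha, hb] at hcomm
  exact absurd hcomm (by decide)

theorem result : ∃ H G : Subgroup (FreeGroup (Fin 2)),
    Echelon H ∧ Echelon G ∧ ¬ Echelon (H ⊓ G) := by
  refine ⟨Hs a b, Hs b a, echelon_first, echelon_second, ?_⟩
  rintro ⟨n, x, hx, hK⟩
  obtain rfl : n = 2 := card_basis x hx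
  obtain ⟨r, s, hr, hs, hrs⟩ := hK 1 (by norm_num)
  rw [flag_top x hx, inf_top_eq] at hr
  -- the intersection is not commutative, so `2 ≤ r`
  have hr2 : 2 ≤ r := by
    by_contra hcon
    have h1 := comm_of_rank hr (by omega) (u := (a * a * (b * b)) * (a * a * (b * b)))
      (v := (b * b * (a * a)) * (b * b * (a * a))) ?_ ?_
    · exact absurd h1 (by decide)
    · constructor
      · have : (a * a * (b * b)) * (a * a * (b * b)) =
          a * a * (b * b * (a * a) * (b * b)) := by group
        rw [this]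
        have ha : a ∈ Hs a b := Subgroup.subset_closure (by simp)
        exact mul_mem (mul_mem ha ha) (Subgroup.subset_closure (by simp))
      · have : (a * a * (b * b)) * (a * a * (b * b)) =
          (a * a * (b * b) * (a * a)) * (b * b) := by group
        rw [this]
        have hb : b ∈ Hs b a := Subgroup.subset_closure (by simp)
        exact mul_mem (Subgroup.subset_closure (by simp)) (mul_mem hb hb)
    · constructor
      · have : (b * b * (a * a)) * (b * b * (a * a)) =
          (b * b * (a * a) * (b * b)) * (a * a) := by group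
        rw [this]
        have ha : a ∈ Hs a b := Subgroup.subset_closure (by simp)
        exact mul_mem (Subgroup.subset_closure (by simp)) (mul_mem ha ha)
      · have : (b * b * (a * a)) * (b * b * (a * a)) =
          b * b * (a * a * (b * b) * (a * a)) := by group
        rw [this]
        have hb : b ∈ Hs b a := Subgroup.subset_closure (by simp)
        exact mul_mem (mul_mem hb hb) (Subgroup.subset_closure (by simp))
  obtain ⟨k, hk, hk1⟩ := ne_bot_of_rank hs (by omega)
  obtain ⟨⟨hkH, hkG⟩, hkf⟩ := hk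
  have hflag : flag x 1 = Subgroup.zpowers (x 0) := by
    rw [flag, Subgroup.zpowers_eq_closure]
    congr 1
    ext y
    constructor
    · rintro ⟨k, hk, rfl⟩
      have : k = 0 := by
        apply Fin.ext
        simp only [Set.mem_ofPred_eq] at hk
        simpa using hk
      subst this
      rfl
    · rintro rfl
      exact ⟨0, by simp, rfl⟩
  rw [hflag] at hkf
  obtain ⟨m, hm⟩ := hkf
  simp only at hm
  have hm0 : m ≠ 0 := by
    rintro rfl
    rw [zpow_zero] at hm
    exact hk1 hm.symm
  have hgen : Subgroup.closure {x 0, x 1} = ⊤ := by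
    rw [← flag_top x hx, flag]
    congr 1
    ext y
    constructor
    · rintro (rfl | rfl)
      · exact ⟨0, by simp, rfl⟩
      · exact ⟨1, by simp, rfl⟩
    · rintro ⟨k, -, rfl⟩
      fin_cases k
      · left; rfl
      · right; rfl
  exact no_power (x 0) (x 1) hgen m hm0 (by rw [hm]; exact μ_eq_one k hkH hkG)

end Pool.Agent.Results.MP_339e71_al.NotEchelon
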